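import Pool.Agent.helper33.CVX.Spec

/-!
# MP_b3a64d_ag, row cvx:MTX
-/

set_option autoImplicit false

namespace Pool.Agent.CVX

open MvPolynomial

/-- a family of natural numbers with sum 1 -/
theorem MTX_sum_one {α : Type} [Fintype α] [DecidableEq α] (f : α → ℕ) (h : ∑ a, f a = 1) :
    ∃ a, f a = 1 ∧ ∀ b, b ≠ a → f b = 0 := by
  have h1 : ∃ a ∈ Finset.univ, f a ≠ 0 := by
    apply Finset.exists_ne_zero_of_sum_ne_zero
    rw [h]
    exact one_ne_zero
  obtain ⟨a, _, ha⟩ := h1
  have h2 := Finset.add_sum_erase Finset.univ f (Finset.mem_univ a)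
  rw [h] at h2
  have h3 : ∑ x ∈ Finset.univ.erase a, f x = 0 := by omega
  refine ⟨a, by omega, ?_⟩
  intro b hb
  exact (Finset.sum_eq_zero_iff.1 h3) b (Finset.mem_erase.2 ⟨hb, Finset.mem_univ b⟩)

/-- the monomial `x_{i,a} x_{i',b}` -/
noncomputable def MTX_m {ι : Type} (n : ι → ℕ) (i i' : ι) (p : Fin (n i + 1) × Fin (n i' + 1)) :
    Vr n →₀ ℕ :=
  Finsupp.single ⟨i, p.1⟩ 1 + Finsupp.single ⟨i', p.2⟩ 1

theorem MTX_m_left {ι : Type} [DecidableEq ι] (n : ι → ℕ) {i i' : ι} (hi : i ≠ i')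
    (p : Fin (n i + 1) × Fin (n i' + 1)) (c : Fin (n i + 1)) :
    MTX_m n i i' p ⟨i, c⟩ = if p.1 = c then 1 else 0 := by
  classical
  unfold MTX_m
  rw [Finsupp.add_apply, Finsupp.single_apply, Finsupp.single_apply]
  have h1 : ¬ ((⟨i', p.2⟩ : Vr n) = ⟨i, c⟩) := by
    intro h
    exact hi (congrArg Sigma.fst h).symm
  rw [if_neg h1, add_zero]
  by_cases h : p.1 = c
  · rw [if_pos h, if_pos (by rw [h])]
  · rw [if_neg h, if_neg]
    intro h2
    exact h (eq_of_heq (Sigma.mk.inj h2).2)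

theorem MTX_m_right {ι : Type} [DecidableEq ι] (n : ι → ℕ) {i i' : ι} (hi : i ≠ i')
    (p : Fin (n i + 1) × Fin (n i' + 1)) (c : Fin (n i' + 1)) :
    MTX_m n i i' p ⟨i', c⟩ = if p.2 = c then 1 else 0 := by
  classical
  unfold MTX_m
  rw [Finsupp.add_apply, Finsupp.single_apply, Finsupp.single_apply]
  have h1 : ¬ ((⟨i, p.1⟩ : Vr n) = ⟨i', c⟩) := by
    intro h
    exact hi (congrArg Sigma.fst h)
  rw [if_neg h1, zero_add]
  by_cases h : p.2 = c
  · rw [if_pos h, if_pos (by rw [h])]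
  · rw [if_neg h, if_neg]
    intro h2
    exact h (eq_of_heq (Sigma.mk.inj h2).2)

theorem MTX_inj {ι : Type} [DecidableEq ι] (n : ι → ℕ) {i i' : ι} (hi : i ≠ i') :
    Function.Injective (MTX_m n i i') := by
  intro p q h
  have h1 := MTX_m_left n hi p p.1
  have h2 := MTX_m_left n hi q p.1
  rw [← h, h1, if_pos rfl] at h2
  have h3 := MTX_m_right n hi p p.2
  have h4 := MTX_m_right n hi q p.2
  rw [← h, h3, if_pos rfl] at h4
  apply Prod.ext
  · by_contra hne
    rw [if_neg (fun h => hne h.symm)] at h2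
    exact one_ne_zero h2
  · by_contra hne
    rw [if_neg (fun h => hne h.symm)] at h4
    exact one_ne_zero h4

theorem MTX_form {ι : Type} [Fintype ι] [DecidableEq ι] (n : ι → ℕ) (F : MvPolynomial (Vr n) ℂ)
    {i i' : ι} (hi : i ≠ i') (hk : ∀ k, k = i ∨ k = i') (hF : MHom n (fun _ => 1) F) :
    F = ∑ a : Fin (n i + 1), ∑ b : Fin (n i' + 1),
      C (coeff (MTX_m n i i' (a, b)) F) * X ⟨i, a⟩ * X ⟨i', b⟩ := by
  have hsub : F.support ⊆ Finset.univ.image (MTX_m n i i') := by
    intro m hm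
    obtain ⟨a, ha1, ha2⟩ := MTX_sum_one _ (hF m hm i)
    obtain ⟨b, hb1, hb2⟩ := MTX_sum_one _ (hF m hm i')
    rw [Finset.mem_image]
    refine ⟨(a, b), Finset.mem_univ _, ?_⟩
    apply Finsupp.ext
    rintro ⟨k, c⟩
    rcases hk k with rfl | rfl
    · rw [MTX_m_left n hi]
      by_cases h : a = c
      · rw [if_pos h, ← h, ha1]
      · rw [if_neg h, ha2 c (fun h' => h h'.symm)]
    · rw [MTX_m_right n hi]
      by_cases h : b = c
      · rw [if_pos h, ← h, hb1]
      · rw [if_neg h, hb2 c (fun h' => h h'.symm)]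
  have h1 : F = ∑ p : Fin (n i + 1) × Fin (n i' + 1),
      monomial (MTX_m n i i' p) (coeff (MTX_m n i i' p) F) := by
    conv_lhs => rw [F.as_sum]
    rw [Finset.sum_subset hsub]
    · rw [Finset.sum_image]
      intro p _ q _ h
      exact MTX_inj n hi h
    · intro m _ hm
      rw [notMem_support_iff.1 hm, monomial_zero]
  conv_lhs => rw [h1]
  rw [Fintype.sum_prod_type]
  apply Finset.sum_congr rfl
  intro a _
  apply Finset.sum_congr rfl
  intro b _
  rw [X, X, C_mul_monomial, monomial_mul]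
  simp only [mul_one]
  rfl

theorem MTX : MTX_stmt := by
  intro ι _ _ n F i i' hi hk hn hF hx
  have hform := MTX_form n F hi hk hF
  obtain ⟨A, hA⟩ : ∃ A : Matrix (Fin (n i + 1)) (Fin (n i' + 1)) ℂ,
      A = fun a b => coeff (MTX_m n i i' (a, b)) F := ⟨_, rfl⟩
  have hform' : F = ∑ a : Fin (n i + 1), ∑ b : Fin (n i' + 1), C (A a b) * X ⟨i, a⟩ * X ⟨i', b⟩ := by
    rw [hA]
    exact hform
  have hder : ∀ (x : Vr n → ℂ) (c : Fin (n i + 1)), eval x (pderiv ⟨i, c⟩ F) =
      ∑ b : Fin (n i' + 1), A c b * x ⟨i', b⟩ := by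
    intro x c
    conv_lhs => rw [hform']
    rw [map_sum, map_sum, Finset.sum_eq_single c]
    · rw [map_sum, map_sum]
      apply Finset.sum_congr rfl
      intro b _
      have h1 : pderiv (⟨i, c⟩ : Vr n) (X ⟨i', b⟩ : MvPolynomial (Vr n) ℂ) = 0 :=
        pderiv_X_of_ne (fun h => hi (congrArg Sigma.fst h).symm)
      rw [Derivation.leibniz, Derivation.leibniz, h1, pderiv_X_self, pderiv_C]
      simp
      ring
    · intro a _ hac
      rw [map_sum, map_sum]
      apply Finset.sum_eq_zero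
      intro b _
      have h1 : pderiv (⟨i, c⟩ : Vr n) (X ⟨i', b⟩ : MvPolynomial (Vr n) ℂ) = 0 :=
        pderiv_X_of_ne (fun h => hi (congrArg Sigma.fst h).symm)
      have h2 : pderiv (⟨i, c⟩ : Vr n) (X ⟨i, a⟩ : MvPolynomial (Vr n) ℂ) = 0 :=
        pderiv_X_of_ne (fun h => hac (eq_of_heq (Sigma.mk.inj h).2))
      rw [Derivation.leibniz, Derivation.leibniz, h1, h2, pderiv_C]
      simp
    · intro h
      exact absurd (Finset.mem_univ c) h
  have hinj : Function.Injective (Matrix.toLin' A) := by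
    rw [injective_iff_map_eq_zero]
    intro y hy
    by_contra hy0
    obtain ⟨c0, hc0⟩ := Function.ne_iff.1 hy0
    let x : Vr n → ℂ := fun v => if h : v.1 = i' then y (h ▸ v.2) else 1
    have hxi' : ∀ b : Fin (n i' + 1), x ⟨i', b⟩ = y b := by
      intro b
      simp [x]
    have hPt : Pt n x := by
      intro k
      rcases hk k with rfl | rfl
      · refine ⟨0, ?_⟩
        have : x ⟨k, 0⟩ = 1 := by
          simp only [x]
          rw [dif_neg hi]
        rw [this]
        exact one_ne_zero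
      · exact ⟨c0, by rw [hxi']; exact hc0⟩
    obtain ⟨a, ha⟩ := hx x hPt
    apply ha
    rw [hder]
    have h1 := congrFun hy a
    rw [Matrix.toLin'_apply] at h1
    have h2 : (A.mulVec y) a = ∑ b, A a b * y b := rfl
    rw [h2] at h1
    simp only [hxi']
    exact h1
  have hfr : Module.finrank ℂ (Fin (n i' + 1) → ℂ) = Module.finrank ℂ (Fin (n i + 1) → ℂ) := by
    rw [Module.finrank_fin_fun, Module.finrank_fin_fun, hn]
  let e := LinearMap.linearEquivOfInjective (Matrix.toLin' A) hinj hfr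
  have he : ∀ y, e y = Matrix.toLin' A y := fun y => rfl
  refine ⟨A, LinearMap.toMatrix' e.symm.toLinearMap, ?_, ?_, hform'⟩
  · apply Matrix.toLin'.injective
    rw [Matrix.toLin'_mul, Matrix.toLin'_toMatrix', Matrix.toLin'_one]
    apply LinearMap.ext
    intro y
    rw [LinearMap.comp_apply, LinearMap.id_apply]
    show Matrix.toLin' A (e.symm y) = y
    rw [← he, LinearEquiv.apply_symm_apply]
  · apply Matrix.toLin'.injective
    rw [Matrix.toLin'_mul, Matrix.toLin'_toMatrix', Matrix.toLin'_one]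
    apply LinearMap.ext
    intro y
    rw [LinearMap.comp_apply, LinearMap.id_apply]
    show e.symm (Matrix.toLin' A y) = y
    rw [← he, LinearEquiv.symm_apply_apply]

end Pool.Agent.CVX
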